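import Pool.Agent.Q23.ZE.Tr

/-!
# Induced representations
-/

set_option autoImplicit false
set_option linter.unusedSectionVars false

namespace Q23.ZE

open Module

section

variable {A : Type} [Group A] {V : Type} [AddCommGroup V] [Module ℝ V]

/-- the space of the induced representation -/
def IndSub (B : Subgroup A) (ρ : B →* (V →ₗ[ℝ] V)) : Submodule ℝ (A → V) where
  carrier := {f | ∀ (a : A) (b : B), f (a * b) = ρ b⁻¹ (f a)}
  add_mem' := by
    intro f g hf hg a b
    change f (a * b) + g (a * b) = ρ b⁻¹ (f a + g a)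
    rw [hf, hg, map_add]
  zero_mem' := by
    intro a b
    change (0 : V) = ρ b⁻¹ 0
    rw [map_zero]
  smul_mem' := by
    intro r f hf a b
    change r • f (a * b) = ρ b⁻¹ (r • f a)
    rw [hf, map_smul]

/-- the induced representation -/
def Ind (B : Subgroup A) (ρ : B →* (V →ₗ[ℝ] V)) : A →* (IndSub B ρ →ₗ[ℝ] IndSub B ρ) where
  toFun g :=
    { toFun := fun f => ⟨fun x => f.1 (g⁻¹ * x), fun a b => by
        change f.1 (g⁻¹ * (a * b)) = ρ b⁻¹ (f.1 (g⁻¹ * a))
        rw [← mul_assoc]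
        exact f.2 _ b⟩
      map_add' := fun _ _ => rfl
      map_smul' := fun _ _ => rfl }
  map_one' := by
    ext f x
    change f.1 (1⁻¹ * x) = f.1 x
    rw [inv_one, one_mul]
  map_mul' g h := by
    ext f x
    change f.1 ((g * h)⁻¹ * x) = f.1 (h⁻¹ * (g⁻¹ * x))
    rw [mul_inv_rev, mul_assoc]

theorem ind_finrank [Finite A] [FiniteDimensional ℝ V] (B : Subgroup A) (ρ : B →* (V →ₗ[ℝ] V)) :
    finrank ℝ (IndSub B ρ) ≤ B.index * finrank ℝ V := by
  classical
  have : Fintype (A ⧸ B) := Fintype.ofFinite _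
  let f : IndSub B ρ →ₗ[ℝ] (A ⧸ B → V) :=
    { toFun := fun f q => f.1 q.out
      map_add' := fun _ _ => rfl
      map_smul' := fun _ _ => rfl }
  have hf : Function.Injective f := by
    intro g g' h
    apply Subtype.ext
    funext a
    obtain ⟨b, hb⟩ := QuotientGroup.mk_out_eq_mul B a
    have h1 : g.1 (Quotient.out (a : A ⧸ B)) = g'.1 (Quotient.out (a : A ⧸ B)) :=
      congrFun h (a : A ⧸ B)
    have h2 : a = Quotient.out (a : A ⧸ B) * (b⁻¹ : B) := by
      rw [hb]
      change a = a * b.1 * b.1⁻¹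
      rw [mul_inv_cancel_right]
    rw [h2, g.2, g'.2, h1]
  have h1 := LinearMap.finrank_le_finrank_of_injective hf
  rw [Module.finrank_pi_fintype, Finset.sum_const, smul_eq_mul, Finset.card_univ,
    ← Nat.card_eq_fintype_card] at h1
  exact h1

/-- bounds for subgroups from bounds for the group -/
theorem ind_bound [Finite A] (z : A) (T : ℕ)
    (hP : ∀ (V : Type) [AddCommGroup V] [Module ℝ V] [FiniteDimensional ℝ V]
      (ρ : A →* (V →ₗ[ℝ] V)), ρ z ≠ 1 → T ≤ finrank ℝ V ^ 2) (B : Subgroup A) :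
    (z ∉ B → T ≤ B.index ^ 2) ∧
    ∀ (V : Type) [AddCommGroup V] [Module ℝ V] [FiniteDimensional ℝ V]
      (ρ : B →* (V →ₗ[ℝ] V)) (h : z ∈ B), ρ ⟨z, h⟩ ≠ 1 → T ≤ (B.index * finrank ℝ V) ^ 2 := by
  classical
  constructor
  · intro hzB
    have h1 := hP (IndSub B (1 : B →* (ℝ →ₗ[ℝ] ℝ))) (Ind B 1) (by
      intro h
      let f : IndSub B (1 : B →* (ℝ →ₗ[ℝ] ℝ)) := ⟨fun a => if a ∈ B then 1 else 0, by
        intro a b
        change (if a * b.1 ∈ B then (1 : ℝ) else 0) = if a ∈ B then 1 else 0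
        by_cases ha : a ∈ B
        · rw [if_pos ha, if_pos (B.mul_mem ha b.2)]
        · rw [if_neg ha, if_neg fun h1 => ha (by
            have := B.mul_mem h1 (B.inv_mem b.2)
            rwa [mul_inv_cancel_right] at this)]⟩
      have h2 := congrArg (fun L : IndSub B (1 : B →* (ℝ →ₗ[ℝ] ℝ)) →ₗ[ℝ] _ => (L f).1 1) h
      change (if z⁻¹ * 1 ∈ B then (1 : ℝ) else 0) = if (1 : A) ∈ B then 1 else 0 at h2
      rw [if_pos B.one_mem, if_neg] at h2
      · norm_num at h2
      · rw [mul_one]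
        exact fun h3 => hzB (B.inv_mem_iff.1 h3))
    refine h1.trans (Nat.pow_le_pow_left ?_ 2)
    refine (ind_finrank B _).trans ?_
    rw [Module.finrank_self, mul_one]
  · intro V _ _ _ ρ hzB hρ
    have h1 := hP (IndSub B ρ) (Ind B ρ) (by
      intro h
      apply hρ
      ext v
      let f : IndSub B ρ := ⟨fun a => if h : a ∈ B then ρ (⟨a, h⟩⁻¹ : B) v else 0, by
        intro a b
        change (if h : a * b.1 ∈ B then ρ (⟨a * b.1, h⟩⁻¹ : B) v else 0) =
          ρ b⁻¹ (if h : a ∈ B then ρ (⟨a, h⟩⁻¹ : B) v else 0)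
        by_cases ha : a ∈ B
        · rw [dif_pos ha, dif_pos (B.mul_mem ha b.2)]
          have h3 : (⟨a * b.1, B.mul_mem ha b.2⟩⁻¹ : B) = b⁻¹ * ⟨a, ha⟩⁻¹ := by
            rw [← mul_inv_rev]
            rfl
          rw [h3, map_mul]
          rfl
        · rw [dif_neg ha, dif_neg fun h1 => ha (by
            have := B.mul_mem h1 (B.inv_mem b.2)
            rwa [mul_inv_cancel_right] at this), map_zero]⟩
      have h2 := congrArg (fun L : IndSub B ρ →ₗ[ℝ] _ => (L f).1 1) h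
      have hzB' : z⁻¹ * 1 ∈ B := by
        rw [mul_one]
        exact B.inv_mem hzB
      change (if h : z⁻¹ * 1 ∈ B then ρ (⟨z⁻¹ * 1, h⟩⁻¹ : B) v else 0) =
        if h : (1 : A) ∈ B then ρ (⟨1, h⟩⁻¹ : B) v else 0 at h2
      rw [dif_pos hzB', dif_pos B.one_mem] at h2
      have h3 : (⟨z⁻¹ * 1, hzB'⟩⁻¹ : B) = ⟨z, hzB⟩ := by
        apply Subtype.ext
        change (z⁻¹ * 1)⁻¹ = z
        rw [mul_one, inv_inv]
      have h4 : (⟨1, B.one_mem⟩⁻¹ : B) = 1 := inv_one
      rw [h3, h4, map_one] at h2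
      exact h2)
    exact h1.trans (Nat.pow_le_pow_left (ind_finrank B _) 2)

end

end Q23.ZE
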