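import Pool.Agent.Q23.ZE.Ind
import Pool.Agent.Q4.ZS.Eul2
import Pool.Agent.Q4.ZI.Loc

/-!
# Actions of groups which contain extraspecial groups
-/

set_option autoImplicit false
set_option linter.unusedSectionVars false

open scoped Manifold ContDiff

namespace Q23.ZE

open Module
open Q4.ZI (Tri)

/-- a connected manifold of dimension zero is a point -/
theorem point (E M : Type) [NormedAddCommGroup E] [NormedSpace ℝ E] [FiniteDimensional ℝ E]
    (hE : finrank ℝ E = 0) [TopologicalSpace M] [ConnectedSpace M] [ChartedSpace E M] :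
    Subsingleton M := by
  have h1 : Subsingleton E := finrank_zero_iff.1 hE
  have h2 : DiscreteTopology M := ChartedSpace.discreteTopology E M
  exact PreconnectedSpace.trivial_of_discrete

/-- an element of a finite group which acts nontrivially on a manifold -/
theorem bound (A : Type) [Group A] [Finite A] (z : A) (T : ℕ)
    (hP : ∀ (V : Type) [AddCommGroup V] [Module ℝ V] [FiniteDimensional ℝ V]
      (ρ : A →* (V →ₗ[ℝ] V)), ρ z ≠ 1 → T ≤ finrank ℝ V ^ 2)
    (E M : Type) [NormedAddCommGroup E] [NormedSpace ℝ E] [FiniteDimensional ℝ E]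
    [TopologicalSpace M] [T2Space M] [ConnectedSpace M] [ChartedSpace E M]
    [IsManifold 𝓘(ℝ, E) 1 M] [MulAction A M]
    (hsm : ∀ g : A, ContMDiff 𝓘(ℝ, E) 𝓘(ℝ, E) 1 (fun y : M => g • y))
    (x : M) (m : ℕ) (hx : Nat.card (MulAction.orbit A x) ≤ m)
    (hT : (finrank ℝ E * m) ^ 2 < T) (y : M) : z • y = y := by
  by_cases hE : finrank ℝ E = 0
  · have := point E M hE
    exact Subsingleton.elim _ _
  set B := MulAction.stabilizer A x with hB
  have hidx : B.index ≤ m := by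
    have h1 : B.index = Nat.card (MulAction.orbit A x) := MulAction.index_stabilizer _ _
    rw [h1]
    exact hx
  obtain ⟨h1, h2⟩ := ind_bound z T hP B
  have hzB : z ∈ B := by
    by_contra h
    have h3 := h1 h
    have h4 : B.index ^ 2 ≤ (finrank ℝ E * m) ^ 2 := by
      refine Nat.pow_le_pow_left (hidx.trans ?_) 2
      exact Nat.le_mul_of_pos_left m (Nat.pos_of_ne_zero hE)
    omega
  obtain ⟨ρ, hρ⟩ := Q4.ZI.tLoc E M B (fun s => hsm s.1) x (fun s => s.2)
  by_contra hne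
  have h3 := h2 E ρ hzB (fun h => hne (hρ ⟨z, hzB⟩ h y))
  have h4 : (B.index * finrank ℝ E) ^ 2 ≤ (finrank ℝ E * m) ^ 2 := by
    refine Nat.pow_le_pow_left ?_ 2
    rw [mul_comm]
    exact Nat.mul_le_mul_left _ hidx
  omega

/-- the main theorem -/
theorem main (p : ℕ) [hp : Fact p.Prime] (Γ : Type) [Group Γ] (D : Subgroup Γ) [Finite D]
    (hD : IsPGroup p D) (z : Γ) (hzD : z ∈ D) (hzc : ∀ d ∈ D, z * d = d * z) (X : Finset Γ)
    (hXD : ∀ x ∈ X, x ∈ D)
    (hX : ∀ x ∈ X, ∀ y ∈ X, x ≠ y → ∃ u ∈ D, u * (x⁻¹ * y) * u⁻¹ = z * (x⁻¹ * y)) (k : ℕ)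
    (E M : Type) [NormedAddCommGroup E] [NormedSpace ℝ E] [FiniteDimensional ℝ E]
    (hdim : (finrank ℝ E * p ^ k) ^ 2 < X.card ∨
      (p ≠ 2 ∨ ∃ c ∈ D, c * c = z ∧ ∀ d ∈ D, c * d = d * c) ∧
        (finrank ℝ E * p ^ k) ^ 2 < 4 * X.card)
    [TopologicalSpace M] [T2Space M] [ConnectedSpace M] [ChartedSpace E M]
    [IsManifold 𝓘(ℝ, E) 1 M] [MulAction Γ M]
    (hsm : ∀ g : Γ, ContMDiff 𝓘(ℝ, E) 𝓘(ℝ, E) 1 (fun y : M => g • y))
    (h : (∃ x : M, Nat.card (MulAction.orbit D x) ≤ p ^ k) ∨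
      ∃ T : Tri D M, ¬ (p : ℤ) ^ (k + 1) ∣ T.chi) :
    (∀ y : M, z • y = y) ∧
      ((Subgroup.normalClosure {z}).FiniteIndex → Finite (MulAction.toPermHom Γ M).range) := by
  classical
  obtain ⟨x, hx⟩ : ∃ x : M, Nat.card (MulAction.orbit D x) ≤ p ^ k := by
    rcases h with ⟨x, hx⟩ | ⟨T, hT⟩
    · exact ⟨x, hx⟩
    · exact Q4.ZS.tEul2 p D M hD T k hT
  let z' : D := ⟨z, hzD⟩
  have hzc' : ∀ a : D, z' * a = a * z' := fun a => Subtype.ext (hzc a.1 a.2)
  let X' : Finset D := X.attach.map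
    ⟨fun x : X => (⟨x.1, hXD x.1 x.2⟩ : D),
      fun x y h => Subtype.ext (congrArg (fun t : D => t.1) h)⟩
  have hX'c : X'.card = X.card := by rw [Finset.card_map, Finset.card_attach]
  have hmem : ∀ a : D, a ∈ X' ↔ a.1 ∈ X := by
    intro a
    rw [Finset.mem_map]
    constructor
    · rintro ⟨x, -, rfl⟩
      exact x.2
    · intro ha
      exact ⟨⟨a.1, ha⟩, Finset.mem_attach _ _, rfl⟩
  have hX' : Sep z' X' := by
    intro a ha b hb hab
    obtain ⟨u, hu, h1⟩ := hX a.1 ((hmem a).1 ha) b.1 ((hmem b).1 hb) fun h => hab (Subtype.ext h)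
    exact ⟨⟨u, hu⟩, Subtype.ext h1⟩
  have hord : ∀ a : D, ∃ m, 0 < m ∧ a ^ m = 1 ∧ (p ≠ 2 → Odd m) := by
    intro a
    obtain ⟨s, hs⟩ := hD a
    refine ⟨p ^ s, pow_pos hp.out.pos s, hs, fun h2 => ?_⟩
    exact (hp.out.odd_of_ne_two h2).pow
  have hz1 : ∀ y : M, z • y = y := by
    intro y
    change z' • y = y
    rcases hdim with hd | ⟨hc, hd⟩
    · refine bound D z' X.card ?_ E M (fun g => hsm g.1) x (p ^ k) hx hd y
      intro V _ _ _ ρ hρ
      obtain ⟨m, hm, hzm, -⟩ := hord z'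
      rw [← hX'c]
      exact bound1 ρ z' hzc' m hm hzm X' hX' hρ
    · refine bound D z' (4 * X.card) ?_ E M (fun g => hsm g.1) x (p ^ k) hx hd y
      intro V _ _ _ ρ hρ
      rw [← hX'c]
      by_cases h2 : p = 2
      · obtain ⟨c, hcD, hcz, hcc⟩ := hc.resolve_left (fun h3 => h3 h2)
        let c' : D := ⟨c, hcD⟩
        obtain ⟨m, hm, hcm, -⟩ := hord c'
        have hcz' : c' ^ 2 = z' := by
          rw [pow_two]
          exact Subtype.ext hcz
        refine bound2 ρ c' (fun a => Subtype.ext (hcc a.1 a.2)) m 2 hm hcm (Or.inr (by decide)) X'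
          ?_ ?_
        · rw [hcz']
          exact hX'
        · rw [hcz']
          exact hρ
      · obtain ⟨m, hm, hzm, hodd⟩ := hord z'
        refine bound2 ρ z' hzc' m 1 hm hzm (Or.inl (hodd h2)) X' ?_ ?_
        · rw [pow_one]
          exact hX'
        · rw [pow_one]
          exact hρ
  refine ⟨hz1, fun hfi => ?_⟩
  have h1 : Subgroup.normalClosure {z} ≤ (MulAction.toPermHom Γ M).ker := by
    apply Subgroup.normalClosure_le_normal
    rintro _ rfl
    exact Equiv.ext hz1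
  have h2 : (MulAction.toPermHom Γ M).ker.FiniteIndex := Subgroup.finiteIndex_of_le h1
  have h3 : Finite (Γ ⧸ (MulAction.toPermHom Γ M).ker) := Subgroup.finite_quotient_of_finiteIndex
  exact Finite.of_equiv _ (QuotientGroup.quotientKerEquivRange _).toEquiv

end Q23.ZE
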