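import Mathlib

/-!
# Representations of groups with many elements conjugate to a central multiple
-/

set_option autoImplicit false
set_option linter.unusedSectionVars false

namespace Q23.ZE

open Module

/-- the family `X` is separated by the element `z`: for distinct `x`, `y` in `X` some conjugate of
`x⁻¹ y` is `z x⁻¹ y` -/
def Sep {A : Type} [Group A] (z : A) (X : Finset A) : Prop :=
  ∀ x ∈ X, ∀ y ∈ X, x ≠ y → ∃ u : A, u * (x⁻¹ * y) * u⁻¹ = z * (x⁻¹ * y)

section

variable {A : Type} [Group A] {K : Type} [Field K] {W : Type} [AddCommGroup W] [Module K W]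

/-- the restriction of the representation to an invariant subspace -/
def resK (ρ : A →* (W →ₗ[K] W)) (U : Submodule K W) (h : ∀ a, ∀ v ∈ U, ρ a v ∈ U) :
    A →* (U →ₗ[K] U) where
  toFun a := (ρ a).restrict (h a)
  map_one' := by
    ext v
    simp
  map_mul' a b := by
    ext v
    simp

theorem trace_zero [FiniteDimensional K W] (ρ : A →* (W →ₗ[K] W)) (z : A) (ζ : K) (hζ : ζ ≠ 1)
    (hz : ρ z = ζ • 1) (w u : A) (h : u * w * u⁻¹ = z * w) : LinearMap.trace K W (ρ w) = 0 := by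
  have h1 : LinearMap.trace K W (ρ (u * w * u⁻¹)) = LinearMap.trace K W (ρ w) := by
    rw [map_mul ρ, map_mul ρ, LinearMap.trace_mul_comm, ← mul_assoc, ← map_mul ρ u⁻¹,
      inv_mul_cancel, map_one, one_mul]
  rw [h, map_mul ρ, hz, smul_mul_assoc, one_mul, map_smul, smul_eq_mul] at h1
  have h2 : (ζ - 1) * LinearMap.trace K W (ρ w) = 0 := by
    rw [sub_mul, h1, one_mul, sub_self]
  exact (mul_eq_zero.1 h2).resolve_left (sub_ne_zero.2 hζ)

/-- the trace argument -/
theorem indep [CharZero K] [FiniteDimensional K W] [Nontrivial W] (ρ : A →* (W →ₗ[K] W)) (z : A)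
    (ζ : K) (hζ : ζ ≠ 1) (hz : ρ z = ζ • 1) (X : Finset A) (hX : Sep z X) :
    X.card ≤ finrank K W ^ 2 := by
  classical
  have h1 : LinearIndependent K (fun x : X => ρ x.1) := by
    rw [Fintype.linearIndependent_iff]
    intro g hg y
    have h2 := congrArg (fun L => LinearMap.trace K W (ρ y.1⁻¹ * L)) hg
    simp only [Finset.mul_sum, mul_zero, map_zero, map_sum] at h2
    rw [Finset.sum_eq_single y] at h2
    · rw [mul_smul_comm, ← map_mul, inv_mul_cancel, map_one, map_smul, LinearMap.trace_one,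
        smul_eq_mul] at h2
      refine (mul_eq_zero.1 h2).resolve_right ?_
      exact_mod_cast Module.finrank_pos.ne'
    · intro x _ hxy
      obtain ⟨u, hu⟩ := hX y.1 y.2 x.1 x.2 (fun h => hxy (Subtype.ext h.symm))
      rw [mul_smul_comm, ← map_mul, map_smul, trace_zero ρ z ζ hζ hz _ u hu, smul_zero]
    · intro h
      exact absurd (Finset.mem_univ y) h
  have h2 := h1.fintype_card_le_finrank
  rw [Fintype.card_coe, Module.finrank_linearMap] at h2
  rw [pow_two]
  exact h2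

end

section cplx

variable {A : Type} [Group A] {V : Type} [AddCommGroup V] [Module ℝ V] [FiniteDimensional ℝ V]

/-- the complexification of a real representation, in coordinates -/
noncomputable def cx (ρ : A →* (V →ₗ[ℝ] V)) :
    A →* ((Fin (finrank ℝ V) → ℂ) →ₗ[ℂ] (Fin (finrank ℝ V) → ℂ)) where
  toFun a := Matrix.toLin' ((LinearMap.toMatrixAlgEquiv (Module.finBasis ℝ V) (ρ a)).map
    (algebraMap ℝ ℂ))
  map_one' := by
    rw [map_one, map_one, Matrix.map_one _ (map_zero _) (map_one _), Matrix.toLin'_one]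
    rfl
  map_mul' a b := by
    rw [map_mul, map_mul, Matrix.map_mul, Matrix.toLin'_mul]
    rfl

theorem cx_apply (ρ : A →* (V →ₗ[ℝ] V)) (a : A) (v : Fin (finrank ℝ V) → ℂ) :
    cx ρ a v = ((LinearMap.toMatrixAlgEquiv (Module.finBasis ℝ V) (ρ a)).map
      (algebraMap ℝ ℂ)).mulVec v := rfl

theorem cx_star (ρ : A →* (V →ₗ[ℝ] V)) (a : A) (v : Fin (finrank ℝ V) → ℂ) :
    cx ρ a (star v) = star (cx ρ a v) := by
  rw [cx_apply, cx_apply]
  ext i
  simp [Matrix.mulVec, dotProduct]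

theorem cx_inj (ρ : A →* (V →ₗ[ℝ] V)) (a : A) (h : cx ρ a = 1) : ρ a = 1 := by
  have h1 : (LinearMap.toMatrixAlgEquiv (Module.finBasis ℝ V) (ρ a)).map (algebraMap ℝ ℂ) =
      1 := by
    apply Matrix.toLin'.injective
    rw [Matrix.toLin'_one]
    exact h
  have h2 : LinearMap.toMatrixAlgEquiv (Module.finBasis ℝ V) (ρ a) = 1 := by
    apply Matrix.map_injective (algebraMap ℝ ℂ).injective
    change _ = (1 : Matrix _ _ ℝ).map (algebraMap ℝ ℂ)
    rw [Matrix.map_one _ (map_zero _) (map_one _)]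
    exact h1
  apply (LinearMap.toMatrixAlgEquiv (Module.finBasis ℝ V)).injective
  rw [h2, map_one]

/-- an eigenvector of a central element on which a given power acts nontrivially -/
theorem eig (ρ : A →* (V →ₗ[ℝ] V)) (c : A) (m j : ℕ) (hm : 0 < m) (hc : c ^ m = 1)
    (h : ρ (c ^ j) ≠ 1) : ∃ (ζ : ℂ) (u : Fin (finrank ℝ V) → ℂ), u ≠ 0 ∧ cx ρ c u = ζ • u ∧
      ζ ^ m = 1 ∧ ζ ^ j ≠ 1 := by
  set C := cx ρ c with hC
  have hpow : ∀ i, cx ρ (c ^ i) = C ^ i := fun i => map_pow _ _ _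
  have hCj : C ^ j ≠ 1 := fun h1 => h (cx_inj ρ _ (by rw [hpow, h1]))
  let U := LinearMap.range (C ^ j - 1)
  have hU : U ≠ ⊥ := fun h1 => hCj (sub_eq_zero.1 (LinearMap.range_eq_bot.1 h1))
  have hUi : ∀ v ∈ U, C v ∈ U := by
    rintro _ ⟨v, rfl⟩
    refine ⟨C v, ?_⟩
    have h1 : (C ^ j - 1) * C = C * (C ^ j - 1) := by
      rw [sub_mul, mul_sub, ← pow_succ, ← pow_succ', one_mul, mul_one]
    exact LinearMap.congr_fun h1 v
  have hnt : Nontrivial U := Submodule.nontrivial_iff_ne_bot.2 hU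
  obtain ⟨ζ, hζ⟩ := Module.End.exists_eigenvalue (C.restrict hUi)
  obtain ⟨u, hu⟩ := hζ.exists_hasEigenvector
  have hu1 : C u.1 = ζ • u.1 := congrArg Subtype.val hu.apply_eq_smul
  have hu0 : u.1 ≠ 0 := fun h1 => hu.2 (Subtype.ext h1)
  have hpu : ∀ i : ℕ, (C ^ i) u.1 = ζ ^ i • u.1 := by
    intro i
    induction i with
    | zero => simp
    | succ i ih =>
      rw [pow_succ', Module.End.mul_apply, ih, map_smul, hu1, smul_smul, pow_succ]
  have hCm : C ^ m = 1 := by rw [← hpow, hc, map_one]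
  refine ⟨ζ, u.1, hu0, hu1, ?_, ?_⟩
  · have h1 := hpu m
    rw [hCm, Module.End.one_apply] at h1
    have h2 : (ζ ^ m - 1) • u.1 = 0 := by
      rw [sub_smul, ← h1, one_smul, sub_self]
    exact sub_eq_zero.1 ((smul_eq_zero.1 h2).resolve_right hu0)
  · intro h1
    have h2 := hpu j
    rw [h1, one_smul] at h2
    obtain ⟨v, hv⟩ := u.2
    have hv' : (C ^ j) v = v + u.1 := by
      rw [← hv]
      change (C ^ j) v = v + ((C ^ j) v - v)
      abel
    have h3 : ∀ i : ℕ, ((C ^ j) ^ i) v = v + (i : ℂ) • u.1 := by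
      intro i
      induction i with
      | zero => simp
      | succ i ih =>
        rw [pow_succ', Module.End.mul_apply, ih, map_add, map_smul, h2, hv']
        push_cast
        rw [add_smul, one_smul]
        abel
    have h4 := h3 m
    rw [← pow_mul, mul_comm, pow_mul, hCm, one_pow, Module.End.one_apply] at h4
    have h5 : (m : ℂ) • u.1 = 0 := by
      have := congrArg (fun t => t - v) h4
      simpa using this.symm
    have h6 : (m : ℂ) ≠ 0 := by exact_mod_cast hm.ne'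
    exact hu0 ((smul_eq_zero.1 h5).resolve_left h6)

/-- the dimension of an eigenspace -/
theorem eig_card (ρ : A →* (V →ₗ[ℝ] V)) (c : A) (hcc : ∀ a, c * a = a * c) (j : ℕ)
    (X : Finset A) (hX : Sep (c ^ j) X) (ζ : ℂ) (u : Fin (finrank ℝ V) → ℂ) (hu0 : u ≠ 0)
    (hu : cx ρ c u = ζ • u) (hζ : ζ ^ j ≠ 1) :
    X.card ≤ finrank ℂ (Module.End.eigenspace (cx ρ c) ζ) ^ 2 := by
  set W := Module.End.eigenspace (cx ρ c) ζ with hW
  have hWm : ∀ v, v ∈ W ↔ cx ρ c v = ζ • v := fun v => Module.End.mem_eigenspace_iff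
  have hWi : ∀ a, ∀ v ∈ W, cx ρ a v ∈ W := by
    intro a v hv
    rw [hWm] at hv ⊢
    have h1 : cx ρ c * cx ρ a = cx ρ a * cx ρ c := by rw [← map_mul, hcc, map_mul]
    have h2 : cx ρ c (cx ρ a v) = cx ρ a (cx ρ c v) := LinearMap.congr_fun h1 v
    rw [h2, hv, map_smul]
  have hnt : Nontrivial W := by
    refine ⟨⟨⟨u, (hWm u).2 hu⟩, 0, fun h => hu0 (congrArg Subtype.val h)⟩⟩
  refine indep (resK (cx ρ) W hWi) (c ^ j) (ζ ^ j) hζ ?_ X hX
  have h1 : resK (cx ρ) W hWi c = ζ • 1 := by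
    ext v : 2
    exact (hWm v.1).1 v.2
  rw [map_pow, h1, smul_pow, one_pow]

/-- the first bound -/
theorem bound1 (ρ : A →* (V →ₗ[ℝ] V)) (z : A) (hz : ∀ a, z * a = a * z) (m : ℕ) (hm : 0 < m)
    (hzm : z ^ m = 1) (X : Finset A) (hX : Sep z X) (h : ρ z ≠ 1) : X.card ≤ finrank ℝ V ^ 2 := by
  obtain ⟨ζ, u, hu0, hu, h1, h2⟩ := eig ρ z m 1 hm hzm (by rwa [pow_one])
  refine (eig_card ρ z hz 1 X (by rwa [pow_one]) ζ u hu0 hu h2).trans ?_
  refine Nat.pow_le_pow_left ?_ 2
  have h3 := Submodule.finrank_le (Module.End.eigenspace (cx ρ z) ζ)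
  rwa [Module.finrank_fin_fun] at h3

/-- the second bound -/
theorem bound2 (ρ : A →* (V →ₗ[ℝ] V)) (c : A) (hc : ∀ a, c * a = a * c) (m j : ℕ) (hm : 0 < m)
    (hcm : c ^ m = 1) (hmj : Odd m ∨ Even j) (X : Finset A) (hX : Sep (c ^ j) X)
    (h : ρ (c ^ j) ≠ 1) : 4 * X.card ≤ finrank ℝ V ^ 2 := by
  obtain ⟨ζ, u, hu0, hu, h1, h2⟩ := eig ρ c m j hm hcm h
  have hu' : cx ρ c (star u) = star ζ • star u := by
    rw [cx_star, hu]
    ext i
    simp
  have h2' : (star ζ) ^ j ≠ 1 := by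
    intro h3
    apply h2
    rw [← star_pow] at h3
    rw [← star_star (ζ ^ j), h3, star_one]
  have h4 := eig_card ρ c hc j X hX ζ u hu0 hu h2
  have h5 := eig_card ρ c hc j X hX (star ζ) (star u) (by
    intro h6
    apply hu0
    rw [← star_star u, h6, star_zero]) hu' h2'
  have hne : ζ ≠ star ζ := by
    intro h6
    obtain ⟨r, hr⟩ := Complex.conj_eq_iff_real.1 h6.symm
    have h7 : r ^ m = 1 := by
      rw [hr] at h1
      exact_mod_cast h1
    have h8 : r ^ j ≠ 1 := by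
      intro h9
      apply h2
      rw [hr]
      exact_mod_cast h9
    have h9 : |r| = 1 := by
      have h10 : |r| ^ m = 1 := by rw [← abs_pow, h7, abs_one]
      exact (pow_eq_one_iff_of_nonneg (abs_nonneg r) hm.ne').1 h10
    rcases (abs_eq zero_le_one).1 h9 with h10 | h10
    · exact h8 (by rw [h10, one_pow])
    · rcases hmj with h11 | h11
      · rw [h10, h11.neg_one_pow] at h7
        norm_num at h7
      · exact h8 (by rw [h10, h11.neg_one_pow])
  have hdisj : Disjoint (Module.End.eigenspace (cx ρ c) ζ)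
      (Module.End.eigenspace (cx ρ c) (star ζ)) := by
    rw [Submodule.disjoint_def]
    intro v hv1 hv2
    rw [Module.End.mem_eigenspace_iff] at hv1 hv2
    have h6 : (ζ - star ζ) • v = 0 := by rw [sub_smul, ← hv1, ← hv2, sub_self]
    exact (smul_eq_zero.1 h6).resolve_left (sub_ne_zero.2 hne)
  have h6 := Submodule.finrank_add_finrank_le_of_disjoint hdisj
  rw [Module.finrank_fin_fun] at h6
  set a := finrank ℂ (Module.End.eigenspace (cx ρ c) ζ)
  set b := finrank ℂ (Module.End.eigenspace (cx ρ c) (star ζ))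
  have h7 : (a + b) ^ 2 ≤ finrank ℝ V ^ 2 := Nat.pow_le_pow_left h6 2
  rcases le_total a b with h8 | h8
  · nlinarith
  · nlinarith

end cplx

end Q23.ZE
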